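import Mathlib

/-!
# Chow polynomials of simplicial posets need not be real-rooted

The face poset of two tetrahedra glued along a vertex is a finite graded simplicial poset of
rank `4`, and its (dual) Chow polynomial `H` is `x^4 + 23 x^3 + 43 x^2 + 23 x + 1`, which has
non-real roots.
-/

namespace Pool.Agent.Results.MP_308f9e_co.NonRealRoot

open Polynomial Finset

/-- `P` is a (finite) graded simplicial poset of rank `n`: every maximal interval `[⊥, m]` is
isomorphic to the Boolean lattice of rank `n`. -/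
def IsSimplicialPoset (P : Type) [PartialOrder P] [OrderBot P] (n : ℕ) : Prop :=
  ∀ m : P, IsMax m → Nonempty (Set.Icc (⊥ : P) m ≃o Finset (Fin n))

/-- The rank of `y`: the largest length of a chain ending at `y`. -/
noncomputable def rk {Q : Type} [PartialOrder Q] (y : Q) : ℕ := (Order.height y).toNat

/-- Flag `f`-vector of a bounded poset: the number of chains `⊥ < y₁ < ⋯ < y_k < ⊤` whose set of
ranks is exactly `T`. -/
noncomputable def flagF (Q : Type) [PartialOrder Q] [BoundedOrder Q] (T : Finset ℕ) : ℕ :=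
  Nat.card {C : Finset Q // IsChain (· ≤ ·) (C : Set Q) ∧ (∀ y ∈ C, ⊥ < y ∧ y < ⊤) ∧
    rk '' (C : Set Q) = (T : Set ℕ)}

/-- Flag `h`-vector. -/
noncomputable def flagH (Q : Type) [PartialOrder Q] [BoundedOrder Q] (S : Finset ℕ) : ℤ :=
  ∑ T ∈ S.powerset, (-1 : ℤ) ^ (S \ T).card * (flagF Q T : ℤ)

/-- The polynomial `H_Q(x) = ∑ β_Q(S) x^|S| (1+x)^(n-2|S|)`, the sum over all isolated subsets
`S` of `{2, …, n}` (`S` is isolated if `i ∈ S` implies `i + 1 ∉ S`), for a graded poset `Q` of
rank `n + 1`. -/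
noncomputable def chowH (Q : Type) [PartialOrder Q] [BoundedOrder Q] (n : ℕ) : ℤ[X] :=
  ∑ S ∈ (Finset.Icc 2 n).powerset with (∀ i ∈ S, i + 1 ∉ S),
    C (flagH Q S) * X ^ S.card * (1 + X) ^ (n - 2 * S.card)

/-! ### Generic facts on flag vectors -/

section generic

variable {Q : Type} [PartialOrder Q] [BoundedOrder Q]

lemma flagF_empty : flagF Q ∅ = 1 := by
  unfold flagF
  rw [Nat.card_eq_one_iff_unique]
  refine ⟨⟨?_⟩, ⟨⟨∅, by simp⟩⟩⟩
  rintro ⟨C, hC, hb, hr⟩ ⟨D, hD, hb', hr'⟩
  simp at hr hr'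
  subst hr hr'
  rfl

lemma flagF_single (hmono : ∀ x y : Q, x < y → rk x < rk y) (i : ℕ) :
    flagF Q {i} = Nat.card {y : Q // (⊥ < y ∧ y < ⊤) ∧ rk y = i} := by
  unfold flagF
  symm
  refine Nat.card_congr (Equiv.ofBijective (fun y => ⟨{y.1}, ?_, ?_, ?_⟩) ⟨?_, ?_⟩)
  · simp
  · simp only [Finset.mem_singleton, forall_eq]
    exact y.2.1
  · simp [y.2.2]
  · rintro ⟨x, hx⟩ ⟨y, hy⟩ h
    simp at h
    exact Subtype.ext h
  · rintro ⟨C, hC, hb, hr⟩
    have hi : i ∈ rk '' (C : Set Q) := by rw [hr]; simp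
    obtain ⟨y, hy, hyi⟩ := hi
    refine ⟨⟨y, hb y hy, hyi⟩, ?_⟩
    apply Subtype.ext
    simp only
    symm
    rw [Finset.eq_singleton_iff_unique_mem]
    refine ⟨hy, fun z hz => ?_⟩
    have hz' : rk z ∈ rk '' (C : Set Q) := ⟨z, hz, rfl⟩
    rw [hr] at hz'
    have hzi : rk z = i := by simpa using hz'
    by_contra hne
    rcases hC hz hy hne with h | h
    · have := hmono z y (lt_of_le_of_ne h hne)
      omega
    · have := hmono y z (lt_of_le_of_ne h (Ne.symm hne))
      omega

lemma flagF_pair (hmono : ∀ x y : Q, x < y → rk x < rk y) {i j : ℕ} (hij : i < j) :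
    flagF Q {i, j} = Nat.card {p : Q × Q // p.1 < p.2 ∧ ((⊥ < p.1 ∧ p.2 < ⊤) ∧
      rk p.1 = i ∧ rk p.2 = j)} := by
  classical
  unfold flagF
  symm
  refine Nat.card_congr (Equiv.ofBijective (fun p => ⟨{p.1.1, p.1.2}, ?_, ?_, ?_⟩) ⟨?_, ?_⟩)
  · intro a ha b hb hab
    simp only [Finset.coe_insert, Finset.coe_singleton, Set.mem_insert_iff,
      Set.mem_singleton_iff] at ha hb
    rcases ha with rfl | rfl <;> rcases hb with rfl | rfl
    · exact absurd rfl hab
    · exact Or.inl p.2.1.le
    · exact Or.inr p.2.1.le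
    · exact absurd rfl hab
  · intro y hy
    simp only [Finset.mem_insert, Finset.mem_singleton] at hy
    rcases hy with rfl | rfl
    · exact ⟨p.2.2.1.1, p.2.1.trans p.2.2.1.2⟩
    · exact ⟨p.2.2.1.1.trans p.2.1, p.2.2.1.2⟩
  · simp only [Finset.coe_insert, Finset.coe_singleton, Set.image_insert_eq, Set.image_singleton]
    rw [p.2.2.2.1, p.2.2.2.2]
  · rintro ⟨⟨x, x'⟩, hx⟩ ⟨⟨y, y'⟩, hy⟩ h
    simp only [Subtype.mk.injEq] at h
    simp only at hx hy
    have h1 : x ∈ ({y, y'} : Finset Q) := by rw [← h]; simp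
    have h2 : x' ∈ ({y, y'} : Finset Q) := by rw [← h]; simp
    simp only [Finset.mem_insert, Finset.mem_singleton] at h1 h2
    have e1 : x = y := by
      rcases h1 with h1 | h1
      · exact h1
      · exfalso
        have := hx.2.2.1
        have := hy.2.2.2
        rw [h1] at *
        omega
    have e2 : x' = y' := by
      rcases h2 with h2 | h2
      · exfalso
        have := hx.2.2.2
        have := hy.2.2.1
        rw [h2] at *
        omega
      · exact h2
    subst e1 e2
    rfl
  · rintro ⟨C, hC, hb, hr⟩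
    have hi : i ∈ rk '' (C : Set Q) := by rw [hr]; simp
    have hj : j ∈ rk '' (C : Set Q) := by rw [hr]; simp
    obtain ⟨x, hx, hxi⟩ := hi
    obtain ⟨y, hy, hyj⟩ := hj
    have hne : x ≠ y := by
      rintro rfl
      omega
    have hxy : x < y := by
      rcases hC hx hy hne with h | h
      · exact lt_of_le_of_ne h hne
      · have := hmono y x (lt_of_le_of_ne h (Ne.symm hne))
        omega
    refine ⟨⟨(x, y), hxy, ⟨(hb x hx).1, (hb y hy).2⟩, hxi, hyj⟩, ?_⟩
    apply Subtype.ext
    simp only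
    ext z
    simp only [Finset.mem_insert, Finset.mem_singleton]
    constructor
    · rintro (rfl | rfl)
      · exact hx
      · exact hy
    · intro hz
      have hz' : rk z ∈ rk '' (C : Set Q) := ⟨z, hz, rfl⟩
      rw [hr] at hz'
      have hzi : rk z = i ∨ rk z = j := by simpa using hz'
      rcases hzi with hzi | hzi
      · left
        by_contra hne
        rcases hC hz hx hne with h | h
        · have := hmono z x (lt_of_le_of_ne h hne)
          omega
        · have := hmono x z (lt_of_le_of_ne h (Ne.symm hne))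
          omega
      · right
        by_contra hne
        rcases hC hz hy hne with h | h
        · have := hmono z y (lt_of_le_of_ne h hne)
          omega
        · have := hmono y z (lt_of_le_of_ne h (Ne.symm hne))
          omega

end generic

/-! ### The poset: two tetrahedra sharing a vertex -/

/-- Faces of two tetrahedra `{0,1,2,3}` and `{3,4,5,6}`. -/
abbrev Face : Type := {s : Finset (Fin 7) // s ⊆ {0, 1, 2, 3} ∨ s ⊆ {3, 4, 5, 6}}

instance : OrderBot Face where
  bot := ⟨∅, by simp⟩
  bot_le := fun s => by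
    rw [← Subtype.coe_le_coe]
    exact Finset.empty_subset _

lemma bot_val : ((⊥ : Face) : Finset (Fin 7)) = ∅ := rfl

/-- Rank on `WithTop Face`. -/
def rank' : WithTop Face → ℕ
  | ⊤ => 5
  | (s : Face) => s.1.card

lemma card_le_four (s : Face) : s.1.card ≤ 4 := by
  rcases s.2 with h | h
  · exact (Finset.card_le_card h).trans (by decide)
  · exact (Finset.card_le_card h).trans (by decide)

lemma rank'_strictMono : StrictMono rank' := by
  intro a b hab
  induction a using WithTop.recTopCoe with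
  | top => exact absurd hab not_top_lt
  | coe a =>
    induction b using WithTop.recTopCoe with
    | top =>
      change a.1.card < 5
      have := card_le_four a
      omega
    | coe b =>
      have h : a < b := WithTop.coe_lt_coe.mp hab
      exact Finset.card_lt_card h

lemma exists_sub_face (s : Face) {k : ℕ} (hk : k < s.1.card) :
    ∃ t : Face, t < s ∧ t.1.card = k := by
  obtain ⟨t, hts, htk⟩ := Finset.exists_subset_card_eq hk.le
  have ht : t ⊆ {0, 1, 2, 3} ∨ t ⊆ {3, 4, 5, 6} := by
    rcases s.2 with h | h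
    · exact Or.inl (hts.trans h)
    · exact Or.inr (hts.trans h)
  refine ⟨⟨t, ht⟩, ?_, htk⟩
  apply lt_of_le_of_ne
  · exact hts
  · rintro rfl
    simp only at hk
    omega

lemma rank'_surj (a : WithTop Face) (b : ℕ) (hb : b < rank' a) :
    ∃ a' : WithTop Face, a' < a ∧ rank' a' = b := by
  induction a using WithTop.recTopCoe with
  | top =>
    have hb' : b < 5 := hb
    by_cases h4 : b = 4
    · refine ⟨((⟨{0, 1, 2, 3}, Or.inl subset_rfl⟩ : Face) : WithTop Face), WithTop.coe_lt_top _, ?_⟩
      rw [h4]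
      rfl
    · obtain ⟨t, -, ht⟩ := exists_sub_face ⟨{0, 1, 2, 3}, Or.inl subset_rfl⟩
        (k := b) (by change b < 4; omega)
      exact ⟨(t : WithTop Face), WithTop.coe_lt_top _, ht⟩
  | coe a =>
    obtain ⟨t, hts, ht⟩ := exists_sub_face a hb
    exact ⟨(t : WithTop Face), WithTop.coe_lt_coe.mpr hts, ht⟩

lemma rk_eq (a : WithTop Face) : rk a = rank' a := by
  unfold rk
  rw [Order.height_eq_of_strictMono rank' rank'_strictMono rank'_surj a]
  simp

lemma rk_mono (x y : WithTop Face) (h : x < y) : rk x < rk y := by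
  rw [rk_eq, rk_eq]
  exact rank'_strictMono h

lemma single_count (i : ℕ) (hi : 0 < i) :
    flagF (WithTop Face) {i} = ((Finset.univ : Finset Face).filter (fun s => s.1.card = i)).card := by
  rw [flagF_single rk_mono, ← Fintype.card_subtype, ← Nat.card_eq_fintype_card]
  symm
  refine Nat.card_congr (Equiv.ofBijective (fun y => ⟨(y.1 : WithTop Face), ⟨?_, ?_⟩, ?_⟩) ⟨?_, ?_⟩)
  · rw [← WithTop.coe_bot, WithTop.coe_lt_coe, bot_lt_iff_ne_bot]
    intro h
    have := y.2
    rw [h, bot_val] at this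
    simp at this
    omega
  · exact WithTop.coe_lt_top _
  · rw [rk_eq]
    exact y.2
  · rintro ⟨x, hx⟩ ⟨y, hy⟩ h
    simp at h
    exact Subtype.ext h
  · rintro ⟨x, ⟨hx, hx'⟩, hr⟩
    induction x using WithTop.recTopCoe with
    | top => exact absurd hx' (lt_irrefl _)
    | coe x =>
      rw [rk_eq] at hr
      exact ⟨⟨x, hr⟩, rfl⟩

lemma pair_count (i j : ℕ) (hi : 0 < i) (hij : i < j) :
    flagF (WithTop Face) {i, j} = ((Finset.univ : Finset (Face × Face)).filter
      (fun p => p.1.1 ⊆ p.2.1 ∧ p.1.1.card = i ∧ p.2.1.card = j)).card := by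
  rw [flagF_pair rk_mono hij, ← Fintype.card_subtype, ← Nat.card_eq_fintype_card]
  symm
  refine Nat.card_congr (Equiv.ofBijective
    (fun p => ⟨((p.1.1 : WithTop Face), (p.1.2 : WithTop Face)), ?_, ⟨?_, ?_⟩, ?_, ?_⟩) ⟨?_, ?_⟩)
  · simp only
    rw [WithTop.coe_lt_coe]
    apply lt_of_le_of_ne
    · exact p.2.1
    · intro h
      have h1 := p.2.2.1
      have h2 := p.2.2.2
      rw [h] at h1
      omega
  · simp only
    rw [← WithTop.coe_bot, WithTop.coe_lt_coe, bot_lt_iff_ne_bot]
    intro h
    have := p.2.2.1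
    rw [h, bot_val] at this
    simp at this
    omega
  · exact WithTop.coe_lt_top _
  · rw [rk_eq]
    exact p.2.2.1
  · rw [rk_eq]
    exact p.2.2.2
  · rintro ⟨⟨x, x'⟩, hx⟩ ⟨⟨y, y'⟩, hy⟩ h
    simp only [Subtype.mk.injEq, Prod.mk.injEq, WithTop.coe_inj] at h
    apply Subtype.ext
    simp only [Prod.mk.injEq]
    exact h
  · rintro ⟨⟨x, y⟩, hxy, ⟨hx, hy⟩, hr, hr'⟩
    induction x using WithTop.recTopCoe with
    | top => exact absurd hxy not_top_lt
    | coe x =>
      induction y using WithTop.recTopCoe with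
      | top => exact absurd hy (lt_irrefl _)
      | coe y =>
        rw [rk_eq] at hr hr'
        refine ⟨⟨(x, y), ?_, hr, hr'⟩, rfl⟩
        exact (WithTop.coe_lt_coe.mp hxy).le

lemma f2 : flagF (WithTop Face) {2} = 12 := by
  rw [single_count 2 (by norm_num)]
  decide +kernel

lemma f3 : flagF (WithTop Face) {3} = 8 := by
  rw [single_count 3 (by norm_num)]
  decide +kernel

lemma f4 : flagF (WithTop Face) {4} = 2 := by
  rw [single_count 4 (by norm_num)]
  decide +kernel

lemma f24 : flagF (WithTop Face) {2, 4} = 12 := by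
  rw [pair_count 2 4 (by norm_num) (by norm_num)]
  decide +kernel

lemma h0 : flagH (WithTop Face) ∅ = 1 := by
  unfold flagH
  simp [flagF_empty]

lemma powerset_single (a : ℕ) : ({a} : Finset ℕ).powerset = {∅, {a}} := by
  ext x
  simp

lemma h2 : flagH (WithTop Face) {2} = 11 := by
  unfold flagH
  rw [powerset_single, Finset.sum_pair (by decide), flagF_empty, f2]
  rfl

lemma h3 : flagH (WithTop Face) {3} = 7 := by
  unfold flagH
  rw [powerset_single, Finset.sum_pair (by decide), flagF_empty, f3]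
  rfl

lemma h4 : flagH (WithTop Face) {4} = 1 := by
  unfold flagH
  rw [powerset_single, Finset.sum_pair (by decide), flagF_empty, f4]
  rfl

lemma h24 : flagH (WithTop Face) {2, 4} = -1 := by
  unfold flagH
  have hp : ({2, 4} : Finset ℕ).powerset = {∅, {2}, {4}, {2, 4}} := by decide
  rw [hp, Finset.sum_insert (by decide), Finset.sum_insert (by decide),
    Finset.sum_insert (by decide), Finset.sum_singleton, flagF_empty, f2, f4, f24]
  rfl

lemma chow_eq : chowH (WithTop Face) 4 =
    (1 + X) ^ 4 + 19 * X * (1 + X) ^ 2 - X ^ 2 := by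
  unfold chowH
  have hp : ((Finset.Icc 2 4).powerset.filter (fun S : Finset ℕ => ∀ i ∈ S, i + 1 ∉ S)) =
      {∅, {2}, {3}, {4}, {2, 4}} := by decide
  rw [hp, Finset.sum_insert (by decide), Finset.sum_insert (by decide),
    Finset.sum_insert (by decide), Finset.sum_insert (by decide), Finset.sum_singleton,
    h0, h2, h3, h4, h24]
  simp only [Finset.card_empty, Finset.card_singleton]
  rw [Finset.card_pair (by norm_num)]
  simp only [map_one, map_neg, map_ofNat]
  norm_num
  ring

/-- The face lattice below a face with four vertices is Boolean of rank four. -/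
noncomputable def iccIso (m : Face) (e : Fin 4 ≃ {x // x ∈ m.1}) :
    Set.Icc (⊥ : Face) m ≃o Finset (Fin 4) where
  toFun s := Finset.univ.filter (fun i => (e i).1 ∈ s.1.1)
  invFun t := ⟨⟨t.map (e.toEmbedding.trans (Function.Embedding.subtype _)), by
      have h : t.map (e.toEmbedding.trans (Function.Embedding.subtype _)) ⊆ m.1 := by
        intro x hx
        rw [Finset.mem_map] at hx
        obtain ⟨i, -, rfl⟩ := hx
        exact (e i).2
      rcases m.2 with h' | h'
      · exact Or.inl (h.trans h')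
      · exact Or.inr (h.trans h')⟩, bot_le, by
      intro x hx
      rw [Finset.mem_map] at hx
      obtain ⟨i, -, rfl⟩ := hx
      exact (e i).2⟩
  left_inv := by
    rintro ⟨s, hs, hsm⟩
    apply Subtype.ext
    apply Subtype.ext
    ext x
    simp only [Finset.mem_map, Finset.mem_filter, Finset.mem_univ, true_and,
      Function.Embedding.trans_apply, Function.Embedding.subtype_apply, Equiv.coe_toEmbedding]
    constructor
    · rintro ⟨i, hi, rfl⟩
      exact hi
    · intro hx
      refine ⟨e.symm ⟨x, hsm hx⟩, ?_, ?_⟩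
      · rw [Equiv.apply_symm_apply]
        exact hx
      · rw [Equiv.apply_symm_apply]
  right_inv := by
    intro t
    ext i
    simp only [Finset.mem_map, Finset.mem_filter, Finset.mem_univ, true_and,
      Function.Embedding.trans_apply, Function.Embedding.subtype_apply, Equiv.coe_toEmbedding]
    constructor
    · rintro ⟨j, hj, hji⟩
      have : j = i := e.injective (Subtype.ext hji)
      rw [← this]
      exact hj
    · intro hi
      exact ⟨i, hi, rfl⟩
  map_rel_iff' := by
    rintro ⟨s, hs, hsm⟩ ⟨t, ht, htm⟩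
    simp only [Equiv.coe_fn_mk]
    constructor
    · intro h
      change s.1 ⊆ t.1
      intro x hx
      have hi : e.symm ⟨x, hsm hx⟩ ∈ Finset.univ.filter (fun i => (e i).1 ∈ s.1) := by
        rw [Finset.mem_filter]
        refine ⟨Finset.mem_univ _, ?_⟩
        rw [Equiv.apply_symm_apply]
        exact hx
      have := h hi
      rw [Finset.mem_filter, Equiv.apply_symm_apply] at this
      exact this.2
    · intro h i hi
      rw [Finset.mem_filter] at hi ⊢
      exact ⟨hi.1, h hi.2⟩

lemma face_simplicial : IsSimplicialPoset Face 4 := by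
  intro m hm
  have hc : m.1.card = 4 := by
    rcases m.2 with h | h
    · have h1 : m ≤ ⟨{0, 1, 2, 3}, Or.inl subset_rfl⟩ := h
      have h2 : ({0, 1, 2, 3} : Finset (Fin 7)) ⊆ m.1 := hm h1
      rw [Finset.Subset.antisymm h h2]
      decide
    · have h1 : m ≤ ⟨{3, 4, 5, 6}, Or.inr subset_rfl⟩ := h
      have h2 : ({3, 4, 5, 6} : Finset (Fin 7)) ⊆ m.1 := hm h1
      rw [Finset.Subset.antisymm h h2]
      decide
  exact ⟨iccIso m (Finset.equivFinOfCardEq hc).symm⟩

/-- **Disproof.** There is a finite graded simplicial poset `P` (of rank `4`) such that the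
polynomial `H` of `P` with a top element adjoined has a non-real root. -/
theorem result : ∃ (P : Type) (_ : PartialOrder P) (_ : OrderBot P) (_ : Finite P),
    IsSimplicialPoset P 4 ∧
    ∃ z : ℂ, z.im ≠ 0 ∧ aeval z (chowH (WithTop P) 4) = 0 := by
  refine ⟨Face, inferInstance, inferInstance, inferInstance, face_simplicial, ?_⟩
  have h365 : Real.sqrt 365 ^ 2 = 365 := Real.sq_sqrt (by norm_num)
  have hlo : 19 < Real.sqrt 365 := by
    rw [Real.lt_sqrt (by norm_num)]
    norm_num
  have hhi : Real.sqrt 365 < 20 := by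
    rw [Real.sqrt_lt' (by norm_num)]
    norm_num
  obtain ⟨w, hw⟩ : ∃ w : ℝ, w = (Real.sqrt 365 - 23) / 2 := ⟨_, rfl⟩
  have hwq : w ^ 2 + 23 * w + 41 = 0 := by
    rw [hw]
    nlinarith [h365]
  have hw1 : -2 < w := by
    rw [hw]
    linarith
  have hw2 : w < 0 := by
    rw [hw]
    linarith
  have hpos : 0 < 1 - w ^ 2 / 4 := by nlinarith
  obtain ⟨v, hv⟩ : ∃ v : ℝ, v = Real.sqrt (1 - w ^ 2 / 4) := ⟨_, rfl⟩
  have hv0 : 0 < v := by
    rw [hv]
    exact Real.sqrt_pos.mpr hpos
  have hvv : v ^ 2 = 1 - w ^ 2 / 4 := by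
    rw [hv]
    exact Real.sq_sqrt hpos.le
  refine ⟨⟨w / 2, v⟩, ne_of_gt hv0, ?_⟩
  rw [chow_eq]
  simp only [map_sub, map_add, map_mul, map_pow, aeval_X, map_one, map_ofNat]
  have hz : (⟨w / 2, v⟩ : ℂ) = (w : ℂ) / 2 + v * Complex.I := by
    apply Complex.ext <;> simp
  rw [hz]
  have hq : ((w : ℂ) / 2 + v * Complex.I) ^ 2 =
      w * ((w : ℂ) / 2 + v * Complex.I) - 1 := by
    have hvv' : (v : ℂ) ^ 2 = 1 - (w : ℂ) ^ 2 / 4 := by
      exact_mod_cast hvv
    have hI : Complex.I ^ 2 = -1 := Complex.I_sq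
    linear_combination (Complex.I ^ 2) * hvv' + (1 - (w : ℂ) ^ 2 / 4) * hI
  have hwq' : (w : ℂ) ^ 2 + 23 * w + 41 = 0 := by
    exact_mod_cast hwq
  generalize (w : ℂ) / 2 + v * Complex.I = z at hq
  have h3 : z ^ 3 = w * z ^ 2 - z := by
    linear_combination z * hq
  have h4 : z ^ 4 = w * z ^ 3 - z ^ 2 := by
    linear_combination z ^ 2 * hq
  have : (1 + z) ^ 4 + 19 * z * (1 + z) ^ 2 - z ^ 2 = z ^ 4 + 23 * z ^ 3 + 43 * z ^ 2 + 23 * z + 1 := by
    ring
  rw [this]
  linear_combination (z ^ 2 + (w + 23) * z + 1) * hq + z ^ 2 * hwq'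

end Pool.Agent.Results.MP_308f9e_co.NonRealRoot
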